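import Pool.Agent.MP_c69980_ag.H43.Spec8

/-!
The derivations dual to a system of parameters at a smooth point.
-/

set_option autoImplicit false

namespace Pool.Agent.MP_c69980_ag.H43

open MvPolynomial H60 Finset

section Dual
variable {n k : ℕ} {W : Set (PS n)} {K : Type} [Field K] [Algebra ℂ K] {z : Fin n → K} {x : PS n}

lemma dual_sum (a : Fin k → K) (D : Fin k → Derivation ℂ K K) (f : K) :
    (∑ i, a i • D i) f = ∑ i, a i * D i f := by
  have h := congrFun (map_sum Derivation.coeFnAddMonoidHom (fun i => a i • D i) univ) f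
  rw [Finset.sum_apply] at h
  exact h

lemma dual_nak (hz : GenPt W z) (hx : x ∈ W) (D : Fin k → Derivation ℂ K K)
    (s : Fin k → locRing z x) (hs : (Ideal.span (Set.range s)).IsMaximal) (f : Fin k → K)
    (hf : ∀ l, f l ∈ locRing z x) : ∃ a ∈ locRing z x,
      (Matrix.of fun i l => D i (f l)).det = a * (Matrix.of fun i l => D i (s l)).det := by
  obtain ⟨a, ha, h⟩ := nak (m := 1) hz hx D s hs _
    (Submodule.subset_span ⟨fun _ => f, fun _ => hf, rfl⟩)
  exact ⟨a, ha, by simpa using h⟩

lemma dual_tb (hz : GenPt W z) (hx : x ∈ W) (hk : Algebra.trdeg ℂ K = k) :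
    ∃ y : Fin k → K, (∀ l, y l ∈ locRing z x) ∧ IsTranscendenceBasis ℂ y := by
  have : Algebra.IsAlgebraic (Algebra.adjoin ℂ (locRing z x : Set K)) K := ⟨fun g => by
    obtain ⟨F, G, d, hF, hG, h0, rfl⟩ := quot hz g
    obtain ⟨b, hb⟩ : ∃ b, x.rep b ≠ 0 := Function.ne_iff.1 x.rep_nonzero
    have h1 : eval x.rep (X b ^ d : PR n) ≠ 0 := by simpa using fun h => absurd h hb
    have h2 : aeval z (X b ^ d : PR n) ≠ 0 := fun h =>
      h1 ((hz.1 _ d (isHomogeneous_X_pow b d)).1 h x hx)
    have h3 : ∀ A : PR n, A.IsHomogeneous d → IsAlgebraic (Algebra.adjoin ℂ (locRing z x : Set K))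
        (aeval z A / aeval z (X b ^ d : PR n)) := fun A hA =>
      isAlgebraic_algebraMap (⟨_, Algebra.subset_adjoin (Algebra.subset_adjoin
        ⟨A, _, d, hA, isHomogeneous_X_pow b d, h1, rfl⟩)⟩ :
          Algebra.adjoin ℂ (locRing z x : Set K))
    refine IsAlgebraic.of_mul (mem_nonZeroDivisors_of_ne_zero (div_ne_zero h0 h2)) (h3 G hG) ?_
    have e : aeval z G / aeval z (X b ^ d : PR n) * (aeval z F / aeval z G) =
        aeval z F / aeval z (X b ^ d : PR n) := by field_simp
    rw [e]
    exact h3 F hF⟩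
  obtain ⟨t, h1, h2⟩ := exists_isTranscendenceBasis_subset (R := ℂ) (locRing z x : Set K)
  obtain ⟨e⟩ : Nonempty (Fin k ≃ t) :=
    Cardinal.eq.1 (by rw [h2.cardinalMk_eq_trdeg, hk, Cardinal.mk_fin])
  exact ⟨_, fun l => h1 (e l).2, h2.comp_equiv e⟩

lemma dual_res (hz : GenPt W z) (hx : x ∈ W) {I : Ideal (locRing z x)} (hI : I.IsMaximal)
    (f : locRing z x) : ∃ c : ℂ, f - algebraMap ℂ (locRing z x) c ∈ I := by
  have hy : On z x.rep := fun G d hG h => (hz.1 G d hG).1 h x hx
  have hle : locRing z x ≤ rg hy := fun u hu => (mem_locRing hy u).1 hu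
  let χ : locRing z x →ₐ[ℂ] ℂ := (chi hy).comp (Subalgebra.inclusion hle)
  have h1 : I ≤ RingHom.ker χ := fun u hu => by
    by_contra h
    obtain ⟨F, G, d, hF, hG, h0, e⟩ := (mem_locRing hy _).1 u.2
    have h2 : χ u = eval x.rep F / eval x.rep G := by
      rw [← vl_eq hy hF hG h0, ← e]; rfl
    have h3 : eval x.rep F ≠ 0 := fun q => h (by rw [RingHom.mem_ker, h2, q, zero_div])
    refine hI.ne_top (I.eq_top_of_isUnit_mem hu (IsUnit.of_mul_eq_one
      ⟨aeval z G / aeval z F, (mem_locRing hy _).2 ⟨G, F, d, hG, hF, h3, rfl⟩⟩ (Subtype.ext ?_)))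
    have h4 : aeval z F ≠ 0 := fun q => h3 (hy F d hF q)
    have h5 : aeval z G ≠ 0 := fun q => h0 (hy G d hG q)
    simp only [MulMemClass.coe_mul, e, OneMemClass.coe_one]
    field_simp
  refine ⟨χ f, ?_⟩
  rw [hI.eq_of_le (RingHom.ker_ne_top χ) h1, RingHom.mem_ker, map_sub, AlgHom.commutes]
  exact sub_self _

end Dual

theorem sDual : SDual := by
  intro n W K _ _ z x k s hz hx hk hs
  obtain ⟨y, hy, hb⟩ := dual_tb hz hx hk
  choose D hD using fun i : Fin k => der_exists hb (fun j => (1 : Matrix (Fin k) (Fin k) K) i j)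
  set A : Matrix (Fin k) (Fin k) K := Matrix.of fun i l => D i (s l) with hA
  have h0 : A.det ≠ 0 := by
    obtain ⟨a, -, h⟩ := dual_nak hz hx D s hs y hy
    have e : (Matrix.of fun i l => D i (y l)) = 1 := by ext i l; exact hD i l
    rw [e, Matrix.det_one] at h
    exact right_ne_zero_of_mul (h ▸ one_ne_zero)
  let d : Fin k → Derivation ℂ K K := fun l => ∑ i, A⁻¹ l i • D i
  have h1 : (Matrix.of fun i j => d i (s j)) = 1 := by
    rw [← A.nonsing_inv_mul h0.isUnit]
    ext i j
    exact dual_sum _ _ _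
  have h2 : ∀ i j, d i (s j) = if i = j then 1 else 0 := fun i j =>
    (congrFun (congrFun h1 i) j).trans (Matrix.one_apply ..)
  refine ⟨d, h2, fun i f hf => ?_, fun E f => ?_, dual_res hz hx hs⟩
  · obtain ⟨a, ha, h⟩ := dual_nak hz hx d s hs (Function.update (fun l => (s l : K)) i f)
      fun l => by
        by_cases e : l = i
        · rwa [e, Function.update_self]
        · rw [Function.update_of_ne e]; exact (s l).2
    have e : (Matrix.of fun j l => d j (Function.update (fun l => (s l : K)) i f l)) =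
        (1 : Matrix (Fin k) (Fin k) K).updateCol i fun j => d j f := by
      rw [← h1]
      ext j l
      rw [Matrix.updateCol_apply, Matrix.of_apply]
      split_ifs with e
      · rw [e, Function.update_self]
      · rw [Function.update_of_ne e]; rfl
    rw [e, ← Matrix.cramer_apply, Matrix.cramer_one, h1, Matrix.det_one, mul_one] at h
    exact (show d i f = a from h) ▸ ha
  · have key : ∀ E : Derivation ℂ K K, (∀ l, E (s l) = 0) → E = 0 := fun E hE => by
      have e1 : E = ∑ i, E (y i) • D i := der_ext hb fun j => by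
        rw [dual_sum]
        simp [hD, Matrix.one_apply]
      have e2 : (fun i => E (y i)) = 0 := Matrix.eq_zero_of_vecMul_eq_zero h0 (funext fun l => by
        have := hE l
        rw [e1, dual_sum] at this
        exact this)
      exact der_ext hb fun i => congrFun e2 i
    have e := key (E - ∑ l, E (s l) • d l) fun l => by
      rw [Derivation.sub_apply, dual_sum]
      simp [h2]
    rw [sub_eq_zero] at e
    rw [← dual_sum, ← e]

end Pool.Agent.MP_c69980_ag.H43
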