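import Pool.Agent.MP_c69980_ag.H43.Spec6

/-!
The poles of the velocity of a point with values in a function field.
-/

set_option autoImplicit false

namespace Pool.Agent.MP_c69980_ag.H43

open MvPolynomial H60 Finset

section

variable {L : Type} [Field L] [Algebra ℂ L]

theorem velF_ex (h : FFd L) (P : Pl L) (n : ℤ) : ∃ ρ : L, ρ ≠ 0 ∧ P.ord ρ = n := by
  obtain ⟨π, h0, h1⟩ := h.a.uni P
  induction n using Int.induction_on with
  | zero => exact ⟨1, one_ne_zero, by simpa using h.a.con P 1⟩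
  | succ n ih =>
    obtain ⟨ρ, a, b⟩ := ih
    exact ⟨ρ * π, mul_ne_zero a h0, by rw [h.a.mul P _ _ a h0, b, h1]⟩
  | pred n ih =>
    obtain ⟨ρ, a, b⟩ := ih
    exact ⟨ρ * π⁻¹, mul_ne_zero a (inv_ne_zero h0), by
      rw [h.a.mul P _ _ a (inv_ne_zero h0), b, h.ord_inv, h1, sub_eq_add_neg]⟩

theorem velF_const (h : FFd L) (P : Pl L) (c : ℂ) : algebraMap ℂ L c ∈ P.V :=
  (h.lam_eq_zero P _).1 (h.lam_const P c)

variable {D : Derivation ℂ L L} {S : Finset (Pl L)} {m : Pl L → ℤ} {χ : ℕ}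

theorem velF_log (h : CD D S m χ) (P : Pl L) {ρ x : L} (h0 : ρ ≠ 0) (h1 : P.ord ρ = m P) :
    ρ * D x / x ∈ P.V := by
  by_cases hx : x = 0
  · simp [hx]
  by_cases hD : D x = 0
  · simp [hD]
  rw [div_eq_mul_inv, h.ff.a.mem P _ (mul_ne_zero (mul_ne_zero h0 hD) (inv_ne_zero hx)),
    h.ff.a.mul P _ _ (mul_ne_zero h0 hD) (inv_ne_zero hx), h.ff.a.mul P _ _ h0 hD, h.ff.ord_inv, h1]
  by_cases e : P.ord x = 0
  · have := (h.reg P x ((h.ff.a.mem P x hx).2 e.ge)).resolve_left hD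
    omega
  · have := (h.ord P x e).2
    omega

theorem velF_reg (h : CD D S m χ) {P : Pl L} (hP : P ∉ S) {x : L} (hx : x ∈ P.V) : D x ∈ P.V := by
  by_cases hD : D x = 0
  · simp [hD]
  have := (h.reg P x hx).resolve_left hD
  rw [h.one P hP] at this
  exact (h.ff.a.mem P _ hD).2 (by omega)

omit [Algebra ℂ L] in
theorem velF_chart {t M : ℕ} {w : Fin M → Option (Fin t)} {y : Fin M → L}
    (h : ∀ o, ∃ b, w b = o ∧ y b ≠ 0) (V : ValuationSubring L) :
    ∃ β, Ch w β y ∧ ∀ x, xc w β y x ∈ V := by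
  classical
  have key : ∀ o, ∃ b, w b = o ∧ y b ≠ 0 ∧ ∀ c, w c = o → V.valuation (y c) ≤ V.valuation (y b) := by
    intro o
    obtain ⟨b₀, h1, h2⟩ := h o
    obtain ⟨b, h3, h4⟩ := (univ.filter fun c => w c = o).exists_max_image
      (fun c => V.valuation (y c)) ⟨b₀, by simpa using h1⟩
    refine ⟨b, by simpa using h3, fun e => h2 ?_, fun c hc => h4 c (by simpa using hc)⟩
    simpa [e] using h4 b₀ (by simpa using h1)
  choose β h1 h2 h3 using key
  refine ⟨β, fun o => ⟨h1 o, h2 o⟩, fun x => ?_⟩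
  rw [← V.valuation_le_one_iff, xc, map_div₀]
  exact div_le_one_of_le₀ (h3 _ _ rfl) zero_le

end

theorem sVelF : SVelF := by
  intro t a M w Θ PP L _ _ D S m χ y hG h hy
  obtain ⟨k, -, hk⟩ := hG.ev.exists
  obtain ⟨g, hg⟩ : ∃ g, Vel w PP D y g :=
    hk.ex L y (D.restrictScalars ℤ) hy fun c _ => D.map_algebraMap c
  refine ⟨g, hg, fun P i => ⟨?_, fun hP ⟨β, b1, b2⟩ => ?_⟩⟩
  · obtain ⟨ρ, r0, r1⟩ := velF_ex h.ff P (m P)
    obtain ⟨β, b1, b2⟩ := velF_chart hy.blk P.V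
    have h1 := hG.val L y (ρ • D) (fun i => ρ * g i) β P.V hy (velF_const h.ff P) b1
      (fun β' h' x => by
        rw [Derivation.smul_apply, hg β' h' x, smul_eq_mul, vf, vf, mul_sum]
        simp only [mul_assoc]) b2
      (fun x => by
        by_cases e : xc w β y x = 0
        · simp [e]
        · simpa [e] using mul_mem (velF_log h P (x := xc w β y x) r0 r1) (b2 x))
      (fun o => velF_log h P r0 r1) i
    refine or_iff_not_imp_left.2 fun e => ?_
    rw [h.ff.a.mem P _ (mul_ne_zero r0 e), h.ff.a.mul P _ _ r0 e, r1] at h1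
    omega
  · refine hG.val L y D g β P.V hy (velF_const h.ff P) b1 hg (fun x => b2 (x.1, w x.1))
      (fun x => velF_reg h hP (b2 (x.1, w x.1))) (fun o => ?_) i
    rw [div_eq_mul_inv]
    refine mul_mem (velF_reg h hP (b2 (β o, none))) ?_
    rw [eta, inv_div]
    exact b2 (β none, o)

end Pool.Agent.MP_c69980_ag.H43
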