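import Pool.Agent.MP_c69980_ag.H43.Spec10

/-!
A differentially simple ring whose normalisation is stable under the derivations is normal.
-/

set_option autoImplicit false

namespace Pool.Agent.MP_c69980_ag.H43

/-- The integral elements of the fraction field. -/
def nml_N (R L : Type) [CommRing R] [IsDomain R] [Field L] [Algebra R L] : Submodule R L where
  carrier := {x | IsIntegral R x ∧ ∃ b : R, b ≠ 0 ∧ b • x ∈ (1 : Submodule R L)}
  add_mem' := fun {x y} ⟨h1, b, b0, hb⟩ ⟨h2, c, c0, hc⟩ => ⟨h1.add h2, b * c, mul_ne_zero b0 c0, by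
    rw [smul_add]
    refine add_mem ?_ ?_
    · rw [mul_comm, mul_smul]; exact Submodule.smul_mem _ _ hb
    · rw [mul_smul]; exact Submodule.smul_mem _ _ hc⟩
  zero_mem' := ⟨isIntegral_zero, 1, one_ne_zero, by simp⟩
  smul_mem' := fun c x ⟨h1, b, b0, hb⟩ => ⟨h1.smul c, b, b0, by
    rw [smul_comm]; exact Submodule.smul_mem _ _ hb⟩

theorem sNml : SNml := by
  intro R E L _ _ _ _ _ _ _ _ _ _ ι d h hf
  have dp : ∀ l, ∀ x ∈ (1 : Submodule R L), d l x ∈ (1 : Submodule R L) := fun l x hx => by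
    obtain ⟨r, rfl⟩ := Submodule.mem_one.1 hx
    exact Submodule.mem_one.2 (h.pres l r)
  have lb : ∀ l (b b' : R) x, algebraMap R L b' = d l (algebraMap R L b) →
      b' • x = d l (b • x) - b • d l x := fun l b b' x e => by
    simp only [Algebra.smul_def, Derivation.leibniz, e, Algebra.algebraMap_self,
      RingHom.id_apply]
    ring
  have dN : ∀ l, ∀ x ∈ nml_N R L, d l x ∈ nml_N R L := fun l x ⟨h1, b, b0, hb⟩ => by
    obtain ⟨b', e⟩ := h.pres l b
    refine ⟨h.int l x h1, b * b, mul_ne_zero b0 b0, ?_⟩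
    rw [mul_smul, show b • d l x = d l (b • x) - b' • x by rw [lb l b b' x e, sub_sub_cancel],
      smul_sub, smul_comm b b']
    exact sub_mem (Submodule.smul_mem _ _ (dp l _ hb)) (Submodule.smul_mem _ _ hb)
  obtain ⟨s, hs⟩ : (nml_N R L).FG :=
    (Module.Finite.iff_fg (N := (integralClosure R L).toSubmodule).1 hf).of_le fun x hx => hx.1
  choose b b0 hb using fun x : s => (show x.1 ∈ nml_N R L from hs ▸ Submodule.subset_span x.2).2
  rcases h.sim ((1 : Submodule R L).colon (nml_N R L)) (fun l r hr r' e => by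
    rw [Submodule.mem_colon] at hr ⊢
    intro x hx
    rw [lb l r r' x e]
    exact sub_mem (dp l _ (hr x hx)) (hr _ (dN l x hx))) with e | e
  · refine absurd (e.le (?_ : ∏ x, b x ∈ _)) (Finset.prod_ne_zero_iff.2 fun x _ => b0 x)
    rw [Submodule.mem_colon, ← hs]
    refine (Submodule.span_le (p := Submodule.comap (LinearMap.lsmul R L (∏ x, b x)) 1)).2
      fun x hx => ?_
    obtain ⟨c, hc⟩ := Finset.dvd_prod_of_mem b (Finset.mem_univ ⟨x, hx⟩)
    change (∏ x, b x) • x ∈ (1 : Submodule R L)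
    rw [hc, mul_comm, mul_smul]
    exact Submodule.smul_mem _ _ (hb ⟨x, hx⟩)
  · refine (isIntegrallyClosed_iff E).2 fun {x} hx => ?_
    obtain ⟨⟨p, q⟩, hq⟩ := IsLocalization.surj (nonZeroDivisors R) x
    have h1 := Submodule.mem_colon.1 (e.ge (Submodule.mem_top (x := 1))) (algebraMap E L x)
      ⟨hx.algebraMap, q, nonZeroDivisors.ne_zero q.2, Submodule.mem_one.2 ⟨p, by
        rw [Algebra.smul_def, IsScalarTower.algebraMap_apply R E L,
          IsScalarTower.algebraMap_apply R E L, ← map_mul, ← hq, mul_comm]⟩⟩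
    rw [one_smul] at h1
    obtain ⟨r, hr⟩ := Submodule.mem_one.1 h1
    exact ⟨r, (algebraMap E L).injective (by rw [← IsScalarTower.algebraMap_apply, hr])⟩

end Pool.Agent.MP_c69980_ag.H43
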